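import Pool.Agent.P8H82.WS.Stm
import Pool.Agent.P8H52.JG.Gold
import Pool.Agent.Y382.Gold

/-!
Packages LAM, JT, TWO of project WS.
-/

set_option autoImplicit false

namespace Pool.Agent.P8H20.WS

open NumberField IsDedekindDomain
open Pool.Agent.P8H82.WS
open Pool.Agent.P8H82.JG (Gold Triple Rep rad dens)

/-- package JT -/
theorem jt : S_JT := by
  intro K _ _ t ht
  obtain ⟨a, b, c⟩ := t
  have hsum := ht.sum
  have hne := ht.ne
  simp only at hsum hne
  have ha : a ≠ 0 := fun h => hne (by rw [h]; ring)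
  have hb : b ≠ 0 := fun h => hne (by rw [h]; ring)
  have hc : c ≠ 0 := fun h => hne (by rw [h]; ring)
  have haK : (a : K) ≠ 0 := RingOfIntegers.coe_ne_zero_iff.2 ha
  have hbK : (b : K) ≠ 0 := RingOfIntegers.coe_ne_zero_iff.2 hb
  have hcK : (c : K) ≠ 0 := RingOfIntegers.coe_ne_zero_iff.2 hc
  have hsK : (a : K) + b + c = 0 := by
    have := congrArg (fun x : 𝓞 K => (x : K)) hsum
    simpa using this
  have hcab : (c : K) = -(a + b) := by linear_combination hsK
  have habK : (a : K) + b ≠ 0 := by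
    intro h
    apply hcK
    rw [hcab, h, neg_zero]
  have h1 : jL (lamT (a, b, c)) = 256 * ((a : K) ^ 2 + a * b + (b : K) ^ 2) ^ 3 /
      ((a : K) * b * c) ^ 2 := by
    unfold jL lamT
    simp only
    have e1 : (-(a : K) / c) ^ 2 - -(a : K) / c + 1 = ((a : K) ^ 2 + a * b + (b : K) ^ 2) / (c : K) ^ 2 := by
      rw [hcab]
      field_simp
      ring
    have e2 : 1 - -(a : K) / c = -(b : K) / c := by
      rw [hcab]
      field_simp
      ring
    rw [e1, e2]
    field_simp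
  refine ⟨?_, ?_⟩
  · simp only
    rw [h1]
    push_cast
    rfl
  · intro σ
    simp only
    have hσa : σ a ≠ 0 := (map_ne_zero σ).2 haK
    have hσb : σ b ≠ 0 := (map_ne_zero σ).2 hbK
    have hσab : σ a + σ b ≠ 0 := by
      rw [← map_add]
      exact (map_ne_zero σ).2 habK
    refine ⟨div_ne_zero hσa hσb, ?_, ?_⟩
    · intro h
      rw [div_eq_iff hσb] at h
      apply hσab
      rw [h]
      ring
    · rw [h1, hcab]
      simp only [map_div₀, map_mul, map_pow, map_add, map_neg, map_ofNat]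
      unfold jr
      have e3 : σ a / σ b + 1 = (σ a + σ b) / σ b := by field_simp
      have e4 : (σ a / σ b) ^ 2 + σ a / σ b + 1 = (σ a ^ 2 + σ a * σ b + σ b ^ 2) / σ b ^ 2 := by
        field_simp
      rw [e3, e4]
      field_simp

/-- coprimality of the first and the third member -/
theorem cop13 {K : Type} [Field K] [NumberField K] {t : 𝓞 K × 𝓞 K × 𝓞 K} (ht : Triple t) :
    IsCoprime t.1 t.2.2 := by
  obtain ⟨a, b, c⟩ := t
  have hsum := ht.sum
  have hcop := ht.cop
  simp only at hsum hcop ⊢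
  have h1 : (1 : 𝓞 K) ∈ Ideal.span {a, b, c} := by rw [hcop]; trivial
  rw [Ideal.mem_span_insert] at h1
  obtain ⟨x, z, hz, hxz⟩ := h1
  rw [Ideal.mem_span_pair] at hz
  obtain ⟨y, w, hyw⟩ := hz
  refine ⟨x - y, w - y, ?_⟩
  have hb : b = -(a + c) := by linear_combination hsum
  rw [hxz, ← hyw, hb]
  ring

/-- package LAM -/
theorem lam : S_LAM := by
  intro K _ _ hK hs
  obtain ⟨s5, hs5⟩ := hs
  have hpid := Pool.Agent.Y382.Gold.pid hK hs5
  refine ⟨?_, ?_, ?_⟩
  · intro t ht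
    obtain ⟨a, b, c⟩ := t
    have hsum := ht.sum
    have hne := ht.ne
    simp only at hsum hne
    have ha : a ≠ 0 := fun h => hne (by rw [h]; ring)
    have hb : b ≠ 0 := fun h => hne (by rw [h]; ring)
    have hc : c ≠ 0 := fun h => hne (by rw [h]; ring)
    have haK : (a : K) ≠ 0 := RingOfIntegers.coe_ne_zero_iff.2 ha
    have hbK : (b : K) ≠ 0 := RingOfIntegers.coe_ne_zero_iff.2 hb
    have hcK : (c : K) ≠ 0 := RingOfIntegers.coe_ne_zero_iff.2 hc
    have hsK : (a : K) + b + c = 0 := by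
      have := congrArg (fun x : 𝓞 K => (x : K)) hsum
      simpa using this
    unfold lamT
    simp only
    refine ⟨div_ne_zero (neg_ne_zero.2 haK) hcK, fun h => ?_⟩
    rw [div_eq_iff hcK] at h
    apply hbK
    linear_combination hsK + h
  · intro l hl0 hl1
    obtain ⟨x, y, hxy, hmk⟩ := IsFractionRing.exists_reduced_fraction (A := 𝓞 K) (K := K) l
    have hy0 : (y : 𝓞 K) ≠ 0 := nonZeroDivisors.ne_zero y.2
    have hyK : ((y : 𝓞 K) : K) ≠ 0 := RingOfIntegers.coe_ne_zero_iff.2 hy0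
    have hl : l = (x : K) / ((y : 𝓞 K) : K) := by
      rw [← hmk, IsFractionRing.mk'_eq_div]
    have hx0 : x ≠ 0 := by
      rintro rfl
      apply hl0
      rw [hl]
      simp
    have hxy0 : x - y ≠ 0 := by
      intro h
      apply hl1
      have : x = y := sub_eq_zero.1 h
      rw [hl, this]
      exact div_self hyK
    have hcop : IsCoprime x (y : 𝓞 K) := hxy.isCoprime
    refine ⟨(-x, x - y, y), ⟨by simp only; ring, ?_, ?_⟩, ?_⟩
    · simp only
      exact mul_ne_zero (mul_ne_zero (neg_ne_zero.2 hx0) hxy0) hy0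
    · simp only
      rw [Ideal.eq_top_iff_one]
      obtain ⟨u, v, huv⟩ := hcop
      rw [← huv]
      apply Ideal.add_mem
      · have : u * x = -u * (-x) := by ring
        rw [this]
        exact Ideal.mul_mem_left _ _ (Ideal.subset_span (by simp))
      · exact Ideal.mul_mem_left _ _ (Ideal.subset_span (by simp))
    · unfold lamT
      simp only
      rw [hl]
      push_cast
      rw [neg_neg]
  · intro t s ht hs' hts
    have hct := cop13 ht
    have hcs := cop13 hs'
    obtain ⟨a, b, c⟩ := t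
    obtain ⟨a', b', c'⟩ := s
    have hsum := ht.sum
    have hne := ht.ne
    have hsum' := hs'.sum
    have hne' := hs'.ne
    simp only at hsum hne hsum' hne' hct hcs
    have hc : c ≠ 0 := fun h => hne (by rw [h]; ring)
    have hc' : c' ≠ 0 := fun h => hne' (by rw [h]; ring)
    have hcK : (c : K) ≠ 0 := RingOfIntegers.coe_ne_zero_iff.2 hc
    have hcK' : (c' : K) ≠ 0 := RingOfIntegers.coe_ne_zero_iff.2 hc'
    unfold lamT at hts
    simp only at hts
    rw [div_eq_div_iff hcK hcK'] at hts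
    have hcross : a * c' = a' * c := by
      apply RingOfIntegers.ext
      push_cast
      linear_combination -hts
    have h1 : c ∣ c' := by
      apply hct.symm.dvd_of_dvd_mul_left
      exact ⟨a', by rw [hcross]; ring⟩
    have h2 : c' ∣ c := by
      apply hcs.symm.dvd_of_dvd_mul_left
      exact ⟨a, by rw [← hcross]; ring⟩
    obtain ⟨u, hu⟩ := associated_of_dvd_dvd h1 h2
    refine ⟨u, ?_⟩
    have hc2 : c' = u * c := by rw [← hu]; ring
    have ha2 : a' = u * a := by
      have : c * a' = c * (u * a) := by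
        calc c * a' = a' * c := by ring
          _ = a * c' := hcross.symm
          _ = c * (u * a) := by rw [hc2]; ring
      exact mul_left_cancel₀ hc this
    have hb2 : b' = u * b := by
      have e1 : b' = -(a' + c') := by linear_combination hsum'
      have e2 : b = -(a + c) := by linear_combination hsum
      rw [e1, e2, ha2, hc2]
      ring
    rw [ha2, hb2, hc2]

/-- package TWO -/
theorem two : S_TWO := by
  intro K _ _ σ τ hG
  obtain ⟨φ, hφ, _, _, hex, huniq⟩ := Pool.Agent.P8H52.JG.int_thm K σ τ hG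
  have h20 : (2 : 𝓞 K) ≠ 0 := two_ne_zero
  -- divisibility by two
  have hdvd : ∀ m n : ℤ, (2 : 𝓞 K) ∣ (m : 𝓞 K) + n * φ → (2 : ℤ) ∣ m ∧ (2 : ℤ) ∣ n := by
    rintro m n ⟨z, hz⟩
    obtain ⟨p, q, rfl⟩ := hex z
    have h1 : (m : 𝓞 K) + n * φ = ((2 * p : ℤ) : 𝓞 K) + ((2 * q : ℤ) : 𝓞 K) * φ := by
      rw [hz]
      push_cast
      ring
    obtain ⟨h2, h3⟩ := huniq _ _ _ _ h1
    exact ⟨⟨p, h2⟩, ⟨q, h3⟩⟩
  have hdvd' : ∀ m n : ℤ, (2 : ℤ) ∣ m → (2 : ℤ) ∣ n → (2 : 𝓞 K) ∣ (m : 𝓞 K) + n * φ := by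
    rintro _ _ ⟨p, rfl⟩ ⟨q, rfl⟩
    exact ⟨(p : 𝓞 K) + q * φ, by push_cast; ring⟩
  have hprime : Prime (2 : 𝓞 K) := by
    refine ⟨h20, ?_, ?_⟩
    · intro hu
      have h1 : (2 : 𝓞 K) ∣ ((1 : ℤ) : 𝓞 K) + ((0 : ℤ) : 𝓞 K) * φ := by
        have := hu.dvd (a := ((1 : ℤ) : 𝓞 K) + ((0 : ℤ) : 𝓞 K) * φ)
        exact this
      have := (hdvd 1 0 h1).1
      omega
    · intro x y hxy
      obtain ⟨m, n, rfl⟩ := hex x
      obtain ⟨m', n', rfl⟩ := hex y
      have h1 : ((m : 𝓞 K) + n * φ) * ((m' : 𝓞 K) + n' * φ) =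
          ((m * m' + n * n' : ℤ) : 𝓞 K) + ((m * n' + m' * n + n * n' : ℤ) : 𝓞 K) * φ := by
        push_cast
        linear_combination (n : 𝓞 K) * n' * hφ
      rw [h1] at hxy
      obtain ⟨h2, h3⟩ := hdvd _ _ hxy
      have key : ((2 : ℤ) ∣ m ∧ (2 : ℤ) ∣ n) ∨ ((2 : ℤ) ∣ m' ∧ (2 : ℤ) ∣ n') := by
        have hz : ∀ p q p' q' : ZMod 2, p * p' + q * q' = 0 → p * q' + p' * q + q * q' = 0 →
            (p = 0 ∧ q = 0) ∨ (p' = 0 ∧ q' = 0) := by decide
        have e : ∀ z : ℤ, (2 : ℤ) ∣ z ↔ (z : ZMod 2) = 0 := fun z =>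
          (ZMod.intCast_zmod_eq_zero_iff_dvd z 2).symm
        rw [e] at h2 h3
        rw [e, e, e, e]
        apply hz
        · push_cast at h2
          exact h2
        · push_cast at h3
          exact h3
      rcases key with ⟨k1, k2⟩ | ⟨k1, k2⟩
      · exact Or.inl (hdvd' _ _ k1 k2)
      · exact Or.inr (hdvd' _ _ k1 k2)
  refine ⟨⟨Ideal.span {2}, (Ideal.span_singleton_prime h20).2 hprime, ?_⟩, rfl, ?_⟩
  · rw [Ne, Ideal.span_singleton_eq_bot]
    exact h20
  · have h1 := Pool.Agent.P8H52.JG.nrm K σ τ hG 2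
    have h2 : |σ ((2 : 𝓞 K) : K) * τ ((2 : 𝓞 K) : K)| = 4 := by
      have : ((2 : 𝓞 K) : K) = 2 := by norm_cast
      rw [this, map_ofNat, map_ofNat]
      norm_num
    rw [h2] at h1
    simp only
    exact_mod_cast h1

end Pool.Agent.P8H20.WS
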